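import Pool.Agent.P.MP_0cc987_co.Main
import Pool.Agent.P.MP_0cc987_co.Limsup

namespace Pool.Agent.Results.MP_0cc987_co.LogDensityHalf

universe u

/-- The odd integers `n ≥ 3` such that `G` has a subgraph isomorphic to the cycle `C_n`. -/
def oddLengths {V : Type u} (G : SimpleGraph V) : Set ℕ :=
  {n | Odd n ∧ 3 ≤ n ∧ (SimpleGraph.cycleGraph n).IsContained G}

/-- The sum of `1 / n` over the odd cycle lengths `n < N` of `G`. -/
noncomputable def oddSum {V : Type u} (G : SimpleGraph V) (N : ℕ) : ℝ :=
  ∑ n ∈ Finset.range N, (oddLengths G).indicator (fun n => (1 : ℝ) / n) n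

/-- The upper logarithmic density `L(G)` of the odd cycle lengths of `G`. -/
noncomputable def upperLog {V : Type u} (G : SimpleGraph V) : ℝ :=
  Filter.limsup (fun N : ℕ => oddSum G N / Real.log N) Filter.atTop

/-- Every graph of infinite chromatic number has `L(G) = 1 / 2`. -/
theorem result {V : Type u} (G : SimpleGraph V) (h : ∀ n : ℕ, ¬ G.Colorable n) :
    upperLog G = 1 / 2 :=
  Pool.Agent.P.MP_0cc987_co.limsup_eq_half Pool.Agent.P.MP_0cc987_co.finite_col G h

end Pool.Agent.Results.MP_0cc987_co.LogDensityHalf
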